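import Pool.Agent.L7h55.Berg.Space

set_option autoImplicit false

/-!
# The wandering subspace of the functions vanishing at a point has an extra zero for `α > 4`
-/

namespace Pool.Agent.L7h55.Berg

open MeasureTheory Set Filter Topology
open scoped InnerProductSpace

lemma exists_extra {α : ℝ} (hα : 4 < α) : ∃ (r : ℝ) (b : ℂ), 0 < r ∧ r < 1 ∧ ‖b‖ < 1 ∧ b ≠ r ∧
    (1 : ℂ) / (1 - r * b) ^ ((α : ℂ) + 2) = 1 / (1 - r * r) ^ ((α : ℂ) + 2) := by
  set θ : ℝ := 2 * Real.pi / (α + 2) with hθ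
  have hpi := Real.pi_pos
  have hθ0 : 0 < θ := by positivity
  have hθ1 : θ < Real.pi / 3 := by
    rw [hθ, div_lt_div_iff₀ (by linarith) (by norm_num)]
    nlinarith
  have hcos : 1 / 2 < Real.cos θ := by
    rw [← Real.cos_pi_div_three]
    exact Real.cos_lt_cos_of_nonneg_of_le_pi hθ0.le (by linarith) hθ1
  have hcos1 : Real.cos θ ≤ 1 := Real.cos_le_one θ
  have hsin : 0 < Real.sin θ := Real.sin_pos_of_pos_of_lt_pi hθ0 (by linarith)
  set t : ℝ := (2 * Real.cos θ - 1) / 2 with ht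
  have ht0 : 0 < t := by rw [ht]; linarith
  have ht1 : t ≤ 1 / 2 := by rw [ht]; linarith
  set r : ℝ := Real.sqrt (1 - t) with hr
  have hr2 : r ^ 2 = 1 - t := Real.sq_sqrt (by linarith)
  have hr0 : 0 < r := Real.sqrt_pos.mpr (by linarith)
  have hr1 : r < 1 := by nlinarith
  set E : ℂ := Complex.exp (θ * Complex.I) with hE
  set b : ℂ := (1 - t * E) / r with hb
  have hrc : (r : ℂ) ≠ 0 := by exact_mod_cast hr0.ne'
  have hrb : (r : ℂ) * b = 1 - t * E := by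
    rw [hb]; field_simp
  have hEre : E.re = Real.cos θ := by rw [hE, Complex.exp_ofReal_mul_I_re]
  have hEim : E.im = Real.sin θ := by rw [hE, Complex.exp_ofReal_mul_I_im]
  refine ⟨r, b, hr0, hr1, ?_, ?_, ?_⟩
  · have h1 : ‖(r : ℂ) * b‖ ^ 2 = 1 - 2 * t * Real.cos θ + t ^ 2 := by
      rw [hrb, ← Complex.normSq_eq_norm_sq, Complex.normSq_apply]
      simp only [Complex.sub_re, Complex.one_re, Complex.re_ofReal_mul, Complex.sub_im,
        Complex.one_im, Complex.im_ofReal_mul, hEre, hEim]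
      nlinarith [Real.sin_sq_add_cos_sq θ]
    rw [norm_mul, Complex.norm_real, Real.norm_of_nonneg hr0.le, mul_pow] at h1
    have h2 : r ^ 2 * ‖b‖ ^ 2 < r ^ 2 * 1 := by
      rw [h1, hr2, mul_one]
      have : t * (t + 1) < t * (2 * Real.cos θ) := by
        apply mul_lt_mul_of_pos_left _ ht0
        rw [ht]; linarith
      nlinarith
    have h3 : ‖b‖ ^ 2 < 1 := lt_of_mul_lt_mul_left h2 (by positivity)
    nlinarith [norm_nonneg b]
  · intro hbr
    have h1 : ((r : ℂ) * b).im = 0 := by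
      rw [hbr, ← Complex.ofReal_mul, Complex.ofReal_im]
    rw [hrb] at h1
    simp only [Complex.sub_im, Complex.one_im, Complex.im_ofReal_mul, hEim] at h1
    nlinarith [mul_pos ht0 hsin]
  · have h1 : (1 : ℂ) - r * b = Complex.exp ((Real.log t : ℝ) + θ * Complex.I) := by
      rw [hrb, Complex.exp_add, ← Complex.ofReal_exp, Real.exp_log ht0]
      ring
    have h2 : (1 : ℂ) - r * r = Complex.exp ((Real.log t : ℝ) : ℂ) := by
      rw [← Complex.ofReal_exp, Real.exp_log ht0]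
      have : (r : ℂ) * r = ((r ^ 2 : ℝ) : ℂ) := by push_cast; ring
      rw [this, hr2]
      push_cast
      ring
    have him : (((Real.log t : ℝ) : ℂ) + θ * Complex.I).im = θ := by simp
    rw [h1, h2, Complex.cpow_def_of_ne_zero (Complex.exp_ne_zero _),
      Complex.cpow_def_of_ne_zero (Complex.exp_ne_zero _), Complex.log_exp, Complex.log_exp]
    · congr 1
      have h3 : (((Real.log t : ℝ) : ℂ) + θ * Complex.I) * ((α : ℂ) + 2) =
          ((Real.log t : ℝ) : ℂ) * ((α : ℂ) + 2) + 2 * Real.pi * Complex.I := by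
        have h4 : (θ : ℂ) * ((α : ℂ) + 2) = 2 * Real.pi := by
          have h5 : θ * (α + 2) = 2 * Real.pi := by
            rw [hθ]; field_simp
          exact_mod_cast h5
        linear_combination Complex.I * h4
      rw [h3, Complex.exp_add, Complex.exp_two_pi_mul_I, mul_one]
    · simp; exact hpi
    · simp; exact hpi.le
    · rw [him]; linarith
    · rw [him]; linarith

variable {α : ℝ}

lemma poly_mul (hα : 0 < α) {b : ℂ} (hb : ‖b‖ < 1) {w : Lp ℂ 2 (bmu α)} (hw : w ∈ A2 hα)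
    (p : Polynomial ℂ) : ∃ h' ∈ A2 hα, ((h' : ℂ → ℂ) =ᵐ[bmu α] fun z => p.eval z * w z) ∧
      ⟪K hα b, h'⟫_ℂ = p.eval b * ⟪K hα b, w⟫_ℂ := by
  induction p using Polynomial.induction_on' with
  | add p q hp hq =>
    obtain ⟨h1, m1, e1, k1⟩ := hp
    obtain ⟨h2, m2, e2, k2⟩ := hq
    refine ⟨h1 + h2, add_mem m1 m2, ?_, ?_⟩
    · filter_upwards [e1, e2, Lp.coeFn_add h1 h2] with z a1 a2 a3
      rw [a3, Pi.add_apply, a1, a2, Polynomial.eval_add]
      ring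
    · rw [inner_add_right, k1, k2, Polynomial.eval_add]
      ring
  | monomial n c =>
    have hn : ∀ n : ℕ, ∃ h' ∈ A2 hα, ((h' : ℂ → ℂ) =ᵐ[bmu α] fun z => z ^ n * w z) ∧
      ⟪K hα b, h'⟫_ℂ = b ^ n * ⟪K hα b, w⟫_ℂ := by
      intro n
      induction n with
      | zero =>
        refine ⟨w, hw, ?_, by simp⟩
        exact Eventually.of_forall fun z => by simp
      | succ n ih =>
        obtain ⟨h1, m1, e1, k1⟩ := ih
        refine ⟨M hα h1, M_mem hα m1, ?_, ?_⟩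
        · filter_upwards [e1, coeFn_M hα h1] with z a1 a2
          rw [a2, a1]
          ring
        · rw [inner_K_M hα hb m1, k1]
          ring
    obtain ⟨h1, m1, e1, k1⟩ := hn n
    refine ⟨c • h1, Submodule.smul_mem _ _ m1, ?_, ?_⟩
    · filter_upwards [e1, Lp.coeFn_smul c h1] with z a1 a2
      rw [a2, Pi.smul_apply, a1, Polynomial.eval_monomial, smul_eq_mul]
      ring
    · rw [inner_smul_right, k1, Polynomial.eval_monomial]
      ring

/-- the functions vanishing at `r` -/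
noncomputable def Vr (hα : 0 < α) (r : ℂ) : Submodule ℂ (Lp ℂ 2 (bmu α)) :=
  A2 hα ⊓ LinearMap.ker ((innerSL ℂ (K hα r) : Lp ℂ 2 (bmu α) →L[ℂ] ℂ) :
    Lp ℂ 2 (bmu α) →ₗ[ℂ] ℂ)

lemma mem_Vr (hα : 0 < α) (r : ℂ) (f : Lp ℂ 2 (bmu α)) :
    f ∈ Vr hα r ↔ f ∈ A2 hα ∧ ⟪K hα r, f⟫_ℂ = 0 := by
  unfold Vr
  rw [Submodule.mem_inf, LinearMap.mem_ker]
  rfl

lemma isClosed_Vr (hα : 0 < α) (r : ℂ) : IsClosed (Vr hα r : Set (Lp ℂ 2 (bmu α))) := by
  unfold Vr
  rw [Submodule.coe_inf]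
  exact (isClosed_A2 hα).inter (ContinuousLinearMap.isClosed_ker _)

lemma diff_mem (hα : 0 < α) {r : ℝ} (h0 : 0 < r) (h1 : r < 1) (k : ℕ) :
    X hα (k + 1) - (r : ℂ) • X hα k ∈ Vr hα r := by
  have hr : ‖(r : ℂ)‖ < 1 := by rw [Complex.norm_real, Real.norm_of_nonneg h0.le]; exact h1
  rw [mem_Vr]
  refine ⟨sub_mem (X_mem hα _) (Submodule.smul_mem _ _ (X_mem hα _)), ?_⟩
  rw [inner_sub_right, inner_smul_right, inner_K_X hα hr, inner_K_X hα hr]
  ring

/-- the key identity -/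
lemma key (hα : 0 < α) {r : ℝ} (h0 : 0 < r) (h1 : r < 1) {w : Lp ℂ 2 (bmu α)}
    (hw : ∀ f ∈ Vr hα r, ∀ g ∈ Vr hα r,
      (g : ℂ → ℂ) =ᵐ[bmu α] (fun z => z * f z) → inner ℂ g w = 0) {b : ℂ} (hb : ‖b‖ < 1) :
    (r : ℂ) * ⟪K hα b, w⟫_ℂ - (1 / (1 - r * b) ^ ((α : ℂ) + 2)) * ⟪X hα 1, w⟫_ℂ =
      r * ⟪X hα 0, w⟫_ℂ - ⟪X hα 1, w⟫_ℂ := by
  have hm : ∀ k, ⟪X hα (k + 2), w⟫_ℂ = r * ⟪X hα (k + 1), w⟫_ℂ := by
    intro k
    have h := hw _ (diff_mem hα h0 h1 k) _ (diff_mem hα h0 h1 (k + 1)) (by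
      have e : X hα (k + 1 + 1) - (r : ℂ) • X hα (k + 1) =
          M hα (X hα (k + 1) - (r : ℂ) • X hα k) := by
        rw [map_sub, map_smul, M_X, M_X]
      rw [e]
      exact coeFn_M hα _)
    rw [inner_sub_left, inner_smul_left, Complex.conj_ofReal] at h
    exact sub_eq_zero.mp h
  have hm2 : ∀ k, ⟪X hα (k + 1), w⟫_ℂ = (r : ℂ) ^ k * ⟪X hα 1, w⟫_ℂ := by
    intro k
    induction k with
    | zero => simp
    | succ k ih => rw [hm, ih]; ring
  have hrb : ‖(r : ℂ) * b‖ < 1 := by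
    rw [norm_mul, Complex.norm_real, Real.norm_of_nonneg h0.le]
    nlinarith [norm_nonneg b]
  have s1 := (inner_K hα hb w).mul_left (r : ℂ)
  have s2 := (hasSum_γ α hrb).mul_right ⟪X hα 1, w⟫_ℂ
  have s3 := s1.sub s2
  refine s3.unique ?_
  have h4 : HasSum (fun n : ℕ => (r : ℂ) * ((γ α n : ℂ) * b ^ n * ⟪X hα n, w⟫_ℂ) -
      (γ α n : ℂ) * (r * b) ^ n * ⟪X hα 1, w⟫_ℂ)
      ((r : ℂ) * ((γ α 0 : ℂ) * b ^ 0 * ⟪X hα 0, w⟫_ℂ) -
      (γ α 0 : ℂ) * (r * b) ^ 0 * ⟪X hα 1, w⟫_ℂ) := by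
    apply hasSum_single 0
    intro n hn
    obtain ⟨k, rfl⟩ := Nat.exists_eq_succ_of_ne_zero hn
    rw [Nat.succ_eq_add_one, hm2, mul_pow]
    ring
  convert! h4 using 1
  rw [γ_zero]
  simp

/-- The weighted Bergman spaces with `α > 4` do not have the wandering subspace property. -/
theorem main {α : ℝ} (hα4 : 4 < α) :
      ∃ V : Submodule ℂ (Lp ℂ 2 (bmu α)),
        IsClosed (V : Set (Lp ℂ 2 (bmu α))) ∧
        (∀ f ∈ V, ∃ g : ℂ → ℂ,
            DifferentiableOn ℂ g (Metric.ball (0 : ℂ) 1) ∧ (f : ℂ → ℂ) =ᵐ[bmu α] g) ∧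
        (∀ f ∈ V, ∃ g ∈ V, (g : ℂ → ℂ) =ᵐ[bmu α] fun z => z * f z) ∧
        ¬ (V ≤ (Submodule.span ℂ
              {h : Lp ℂ 2 (bmu α) | ∃ p : Polynomial ℂ, ∃ w ∈ V,
                (∀ f ∈ V, ∀ g ∈ V,
                    (g : ℂ → ℂ) =ᵐ[bmu α] (fun z => z * f z) → inner ℂ g w = 0) ∧
                (h : ℂ → ℂ) =ᵐ[bmu α] fun z => p.eval z * w z}).topologicalClosure) := by
  have hα : 0 < α := by linarith
  obtain ⟨r, b, h0, h1, hb, hbr, hG⟩ := exists_extra hα4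
  have hr : ‖(r : ℂ)‖ < 1 := by rw [Complex.norm_real, Real.norm_of_nonneg h0.le]; exact h1
  refine ⟨Vr hα r, isClosed_Vr hα r, ?_, ?_, ?_⟩
  · intro f hf
    rw [mem_Vr] at hf
    refine ⟨_, differentiableOn_rep hα f, ?_⟩
    filter_upwards [rep hα hf.1, ae_lt α] with z h2 h3
    rw [h2, (inner_K hα h3 f).tsum_eq]
  · intro f hf
    rw [mem_Vr] at hf
    refine ⟨M hα f, ?_, coeFn_M hα f⟩
    rw [mem_Vr]
    refine ⟨M_mem hα hf.1, ?_⟩
    rw [inner_K_M hα hr hf.1, hf.2, mul_zero]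
  · intro hle
    have hker : (Submodule.span ℂ
              {h : Lp ℂ 2 (bmu α) | ∃ p : Polynomial ℂ, ∃ w ∈ Vr hα r,
                (∀ f ∈ Vr hα r, ∀ g ∈ Vr hα r,
                    (g : ℂ → ℂ) =ᵐ[bmu α] (fun z => z * f z) → inner ℂ g w = 0) ∧
                (h : ℂ → ℂ) =ᵐ[bmu α] fun z => p.eval z * w z}).topologicalClosure ≤
        LinearMap.ker ((innerSL ℂ (K hα b) : Lp ℂ 2 (bmu α) →L[ℂ] ℂ) :
          Lp ℂ 2 (bmu α) →ₗ[ℂ] ℂ) := by
      apply Submodule.topologicalClosure_minimal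
      · rw [Submodule.span_le]
        rintro h ⟨p, w, hw, hw2, hh⟩
        rw [SetLike.mem_coe, LinearMap.mem_ker]
        change ⟪K hα b, h⟫_ℂ = 0
        have hw' := (mem_Vr hα r w).mp hw
        obtain ⟨h', _, e', k'⟩ := poly_mul hα hb hw'.1 p
        have hhh : h = h' := by
          apply Lp.ext
          exact hh.trans e'.symm
        rw [hhh, k']
        have i1 := key hα h0 h1 hw2 hb
        have i2 := key hα h0 h1 hw2 hr
        rw [hw'.2, ← hG] at i2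
        have i3 : (r : ℂ) * ⟪K hα b, w⟫_ℂ = 0 := by linear_combination i1 - i2
        have hrc : (r : ℂ) ≠ 0 := by exact_mod_cast h0.ne'
        rcases mul_eq_zero.mp i3 with i4 | i4
        · exact absurd i4 hrc
        · rw [i4, mul_zero]
      · exact ContinuousLinearMap.isClosed_ker _
    have hmem := hker (hle (diff_mem hα h0 h1 0))
    rw [LinearMap.mem_ker] at hmem
    change ⟪K hα b, X hα (0 + 1) - (r : ℂ) • X hα 0⟫_ℂ = 0 at hmem
    rw [inner_sub_right, inner_smul_right, inner_K_X hα hb, inner_K_X hα hb] at hmem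
    apply hbr
    linear_combination hmem

end Pool.Agent.L7h55.Berg
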