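import Mathlib

set_option autoImplicit false

/-!
# Moments of the standard radial weights on the disc
-/

namespace Pool.Agent.L7h55.Berg

open MeasureTheory Set Filter Topology

/-- the measure `(1 + α) (1 - |z|²) ^ α dA` on the disc -/
noncomputable def bmu (α : ℝ) : Measure ℂ :=
  (volume.restrict (Metric.ball (0 : ℂ) 1)).withDensity
    (fun z : ℂ => ENNReal.ofReal ((1 + α) * (1 - ‖z‖ ^ 2) ^ α / Real.pi))

/-- the weight -/
noncomputable def wt (α : ℝ) (r : ℝ) : ℝ := (1 + α) * (1 - r ^ 2) ^ α / Real.pi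

lemma wt_nonneg {α r : ℝ} (hα : 0 < α) (hr : r ^ 2 ≤ 1) : 0 ≤ wt α r := by
  unfold wt
  have : 0 ≤ (1 - r ^ 2) ^ α := Real.rpow_nonneg (by linarith) _
  have := Real.pi_pos
  positivity

lemma wt_le {α r : ℝ} (hα : 0 < α) (hr : r ^ 2 ≤ 1) : wt α r ≤ (1 + α) / Real.pi := by
  unfold wt
  have h1 : (1 - r ^ 2) ^ α ≤ 1 :=
    Real.rpow_le_one (by linarith) (by nlinarith [sq_nonneg r]) hα.le
  have := Real.pi_pos
  gcongr
  nlinarith

lemma measurable_dens (α : ℝ) :
    Measurable (fun z : ℂ => ENNReal.ofReal ((1 + α) * (1 - ‖z‖ ^ 2) ^ α / Real.pi)) := by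
  fun_prop

lemma integral_bmu {α : ℝ} (hα : 0 < α) (f : ℂ → ℂ) :
    ∫ z, f z ∂(bmu α) = ∫ z, (if ‖z‖ < 1 then ((wt α ‖z‖ : ℝ) : ℂ) * f z else 0) := by
  unfold bmu
  rw [integral_withDensity_eq_integral_toReal_smul (measurable_dens α)
    (Eventually.of_forall fun _ => ENNReal.ofReal_lt_top), ← integral_indicator measurableSet_ball]
  congr 1
  funext z
  by_cases hz : ‖z‖ < 1
  · rw [if_pos hz, indicator_of_mem (by simpa using hz)]
    rw [ENNReal.toReal_ofReal, Complex.real_smul]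
    · rfl
    · exact wt_nonneg hα (by nlinarith [norm_nonneg z])
  · rw [if_neg hz, indicator_of_notMem (by simpa using hz)]

lemma isFinite {α : ℝ} (hα : 0 < α) : IsFiniteMeasure (bmu α) := by
  unfold bmu
  apply isFiniteMeasure_withDensity_ofReal
  rw [hasFiniteIntegral_iff_enorm]
  calc ∫⁻ z in Metric.ball (0 : ℂ) 1, ‖(1 + α) * (1 - ‖z‖ ^ 2) ^ α / Real.pi‖ₑ
      ≤ ∫⁻ z in Metric.ball (0 : ℂ) 1, ENNReal.ofReal ((1 + α) / Real.pi) := by
        apply setLIntegral_mono' measurableSet_ball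
        intro z hz
        have hz : ‖z‖ < 1 := by simpa using hz
        have h2 : ‖z‖ ^ 2 ≤ 1 := by nlinarith [norm_nonneg z]
        have h3 : (1 + α) * (1 - ‖z‖ ^ 2) ^ α / Real.pi = wt α ‖z‖ := rfl
        rw [h3, Real.enorm_eq_ofReal (wt_nonneg hα h2)]
        exact ENNReal.ofReal_le_ofReal (wt_le hα h2)
    _ < ⊤ := by
        rw [lintegral_const, Measure.restrict_apply_univ]
        exact ENNReal.mul_lt_top ENNReal.ofReal_lt_top (measure_ball_lt_top)

/-- rotations do not change the integral -/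
lemma integral_rotate {α : ℝ} (hα : 0 < α) (f : ℂ → ℂ) (c : Circle) :
    ∫ z, f ((c : ℂ) * z) ∂(bmu α) = ∫ z, f z ∂(bmu α) := by
  rw [integral_bmu hα, integral_bmu hα]
  have h := (rotation c).measurePreserving.integral_comp
    (rotation c).toHomeomorph.measurableEmbedding
    (fun z : ℂ => (if ‖z‖ < 1 then ((wt α ‖z‖ : ℝ) : ℂ) * f z else 0))
  rw [← h]
  congr 1
  funext z
  rw [LinearIsometryEquiv.norm_map, rotation_apply]

lemma integral_monomial_ne {α : ℝ} (hα : 0 < α) {m n : ℕ} (hmn : m ≠ n) :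
    ∫ z, (starRingEnd ℂ) (z ^ m) * z ^ n ∂(bmu α) = 0 := by
  obtain ⟨c, hc⟩ : ∃ c : Circle, (c : ℂ) ^ n ≠ (c : ℂ) ^ m := by
    by_contra hcon
    push Not at hcon
    have h1 := hcon (Circle.exp 1)
    rw [Circle.coe_exp, ← Complex.exp_nat_mul, ← Complex.exp_nat_mul,
      Complex.exp_eq_exp_iff_exists_int] at h1
    obtain ⟨k, hk⟩ := h1
    have hk2 : ((n : ℂ) - m - k * (2 * Real.pi)) * Complex.I = 0 := by
      push_cast at hk
      linear_combination hk
    have hk3 : (n : ℂ) - m - k * (2 * Real.pi) = 0 := by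
      rcases mul_eq_zero.mp hk2 with h | h
      · exact h
      · exact absurd h Complex.I_ne_zero
    have hk4 : (n : ℝ) - m - k * (2 * Real.pi) = 0 := by exact_mod_cast hk3
    have hk5 : k = 0 := by
      by_contra hk0
      have hk1 : (k : ℝ) ≠ 0 := by exact_mod_cast hk0
      apply irrational_pi
      refine ⟨((n : ℚ) - m) / (2 * k), ?_⟩
      push_cast
      field_simp
      linarith
    rw [hk5] at hk4
    apply hmn
    have : (n : ℝ) = m := by simpa [sub_eq_zero] using hk4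
    exact_mod_cast this.symm
  have h := integral_rotate hα (fun z => (starRingEnd ℂ) (z ^ m) * z ^ n) c
  have h2 : ∀ z : ℂ, (starRingEnd ℂ) (((c : ℂ) * z) ^ m) * ((c : ℂ) * z) ^ n =
      ((starRingEnd ℂ) ((c : ℂ) ^ m) * (c : ℂ) ^ n) * ((starRingEnd ℂ) (z ^ m) * z ^ n) := by
    intro z
    rw [mul_pow, mul_pow, map_mul]
    ring
  simp_rw [h2] at h
  rw [integral_const_mul] at h
  have h3 : (starRingEnd ℂ) ((c : ℂ) ^ m) * (c : ℂ) ^ n ≠ 1 := by
    intro h4
    apply hc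
    have h5 : (c : ℂ) ^ m * (starRingEnd ℂ) ((c : ℂ) ^ m) = 1 := by
      rw [Complex.mul_conj, Complex.normSq_eq_norm_sq, norm_pow, Circle.norm_coe]
      simp
    calc (c : ℂ) ^ n = ((c : ℂ) ^ m * (starRingEnd ℂ) ((c : ℂ) ^ m)) * (c : ℂ) ^ n := by
          rw [h5, one_mul]
      _ = (c : ℂ) ^ m * ((starRingEnd ℂ) ((c : ℂ) ^ m) * (c : ℂ) ^ n) := by ring
      _ = (c : ℂ) ^ m := by rw [h4, mul_one]
  have h6 : (((starRingEnd ℂ) ((c : ℂ) ^ m) * (c : ℂ) ^ n) - 1) *
      ∫ z, (starRingEnd ℂ) (z ^ m) * z ^ n ∂(bmu α) = 0 := by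
    rw [sub_mul, h, one_mul, sub_self]
  rcases mul_eq_zero.mp h6 with h7 | h7
  · exact absurd (sub_eq_zero.mp h7) h3
  · exact h7

/-- the radial integral -/
noncomputable def I (α : ℝ) (n : ℕ) : ℝ := ∫ y in (0 : ℝ)..1, y ^ (2 * n + 1) * (1 - y ^ 2) ^ α

lemma cont_aux {α : ℝ} (hα : 0 < α) (n : ℕ) :
    Continuous (fun y : ℝ => y ^ (2 * n + 1) * (1 - y ^ 2) ^ α) := by
  apply Continuous.mul (by fun_prop)
  apply Continuous.rpow_const (by fun_prop)
  intro y
  right
  exact hα.le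

lemma I_rec {α : ℝ} (hα : 0 < α) (n : ℕ) : (n + 1) * I α n = (n + α + 2) * I α (n + 1) := by
  have hd : ∀ y ∈ uIcc (0 : ℝ) 1, HasDerivAt (fun y : ℝ => y ^ (2 * n + 2) * (1 - y ^ 2) ^ (α + 1))
      ((2 * n + 2) * (y ^ (2 * n + 1) * (1 - y ^ 2) ^ α) -
        (2 * n + 2 * α + 4) * (y ^ (2 * (n + 1) + 1) * (1 - y ^ 2) ^ α)) y := by
    intro y hy
    rw [uIcc_of_le zero_le_one] at hy
    have h1 : HasDerivAt (fun y : ℝ => y ^ (2 * n + 2)) (((2 * n + 2 : ℕ) : ℝ) * y ^ (2 * n + 1)) y := by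
      simpa using hasDerivAt_pow (2 * n + 2) y
    have h2 : HasDerivAt (fun y : ℝ => 1 - y ^ 2) (-(2 * y)) y := by
      simpa using (hasDerivAt_pow 2 y).const_sub 1
    have h3 := h2.rpow_const (p := α + 1) (Or.inr (by linarith))
    have h4 := h1.mul h3
    convert! h4 using 1
    have h5 : (1 - y ^ 2) ^ (α + 1) = (1 - y ^ 2) ^ α * (1 - y ^ 2) :=
      Real.rpow_add_one' (by nlinarith [hy.1, hy.2]) (by linarith)
    rw [h5, add_sub_cancel_right]
    push_cast
    ring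
  have h := intervalIntegral.integral_eq_sub_of_hasDerivAt hd (by
    apply Continuous.intervalIntegrable
    exact ((cont_aux hα n).const_mul _).sub ((cont_aux hα (n + 1)).const_mul _))
  rw [intervalIntegral.integral_sub (((cont_aux hα n).const_mul _).intervalIntegrable _ _)
    (((cont_aux hα (n + 1)).const_mul _).intervalIntegrable _ _),
    intervalIntegral.integral_const_mul, intervalIntegral.integral_const_mul] at h
  have h0 : (0 : ℝ) ^ (2 * n + 2) = 0 := by simp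
  have h1 : (1 - (1 : ℝ) ^ 2) ^ (α + 1) = 0 := by
    rw [one_pow, sub_self]; exact Real.zero_rpow (by linarith)
  rw [h0, h1] at h
  unfold I
  linarith

lemma I_zero {α : ℝ} (hα : 0 < α) : 2 * (1 + α) * I α 0 = 1 := by
  have hd : ∀ y ∈ uIcc (0 : ℝ) 1, HasDerivAt (fun y : ℝ => (1 - y ^ 2) ^ (α + 1))
      (-(2 * (α + 1)) * (y ^ (2 * 0 + 1) * (1 - y ^ 2) ^ α)) y := by
    intro y _
    have h2 : HasDerivAt (fun y : ℝ => 1 - y ^ 2) (-(2 * y)) y := by
      simpa using (hasDerivAt_pow 2 y).const_sub 1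
    have h3 := h2.rpow_const (p := α + 1) (Or.inr (by linarith))
    convert! h3 using 1
    rw [add_sub_cancel_right]
    ring
  have h := intervalIntegral.integral_eq_sub_of_hasDerivAt hd (by
    apply Continuous.intervalIntegrable
    exact (cont_aux hα 0).const_mul _)
  rw [intervalIntegral.integral_const_mul] at h
  have h1 : (1 - (1 : ℝ) ^ 2) ^ (α + 1) = 0 := by
    rw [one_pow, sub_self]; exact Real.zero_rpow (by linarith)
  have h0 : (1 - (0 : ℝ) ^ 2) ^ (α + 1) = 1 := by simp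
  rw [h0, h1] at h
  unfold I
  linarith

lemma integral_monomial_eq {α : ℝ} (hα : 0 < α) (n : ℕ) :
    ∫ z, (starRingEnd ℂ) (z ^ n) * z ^ n ∂(bmu α) = ((2 * (1 + α) * I α n : ℝ) : ℂ) := by
  rw [integral_bmu hα]
  have h1 : ∀ z : ℂ, (if ‖z‖ < 1 then ((wt α ‖z‖ : ℝ) : ℂ) * ((starRingEnd ℂ) (z ^ n) * z ^ n)
      else 0) = (((if ‖z‖ < 1 then wt α ‖z‖ * ‖z‖ ^ (2 * n) else 0) : ℝ) : ℂ) := by
    intro z
    split_ifs with hz
    · have : (starRingEnd ℂ) (z ^ n) * z ^ n = ((‖z‖ ^ (2 * n) : ℝ) : ℂ) := by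
        rw [mul_comm, Complex.mul_conj, Complex.normSq_eq_norm_sq, norm_pow, ← pow_mul, mul_comm]
      rw [this]
      push_cast
      rfl
    · simp
  simp_rw [h1]
  rw [integral_complex_ofReal]
  congr 1
  rw [integral_fun_norm_addHaar volume
    (fun y : ℝ => if y < 1 then wt α y * y ^ (2 * n) else 0)]
  have h2 : volume.real (Metric.ball (0 : ℂ) 1) = Real.pi := by
    rw [Measure.real, Complex.volume_ball]
    simp
  rw [h2, Complex.finrank_real_complex]
  have h3 : ∫ y in Ioi (0 : ℝ), y ^ (2 - 1) • (if y < 1 then wt α y * y ^ (2 * n) else 0) =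
      ∫ y in (0 : ℝ)..1, ((1 + α) / Real.pi) * (y ^ (2 * n + 1) * (1 - y ^ 2) ^ α) := by
    rw [intervalIntegral.integral_of_le zero_le_one, integral_Ioc_eq_integral_Ioo,
      ← integral_indicator measurableSet_Ioi, ← integral_indicator measurableSet_Ioo]
    congr 1
    funext y
    by_cases hy : y ∈ Ioi (0 : ℝ)
    · rw [indicator_of_mem hy]
      by_cases hy1 : y < 1
      · rw [if_pos hy1, indicator_of_mem (show y ∈ Ioo (0 : ℝ) 1 from ⟨hy, hy1⟩)]
        unfold wt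
        simp only [smul_eq_mul]
        ring
      · rw [if_neg hy1, indicator_of_notMem (fun h => hy1 h.2)]
        simp
    · rw [indicator_of_notMem hy, indicator_of_notMem (fun h => hy h.1)]
  rw [h3, intervalIntegral.integral_const_mul]
  unfold I
  simp only [nsmul_eq_mul, smul_eq_mul]
  have := Real.pi_pos.ne'
  field_simp
  push_cast
  ring

end Pool.Agent.L7h55.Berg
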