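import Pool.Agent.L7h55.Berg.Moments

set_option autoImplicit false

/-!
# The weighted Bergman space: monomials, point evaluations, multiplication by `z`
-/

namespace Pool.Agent.L7h55.Berg

open MeasureTheory Set Filter Topology
open scoped InnerProductSpace

variable {α : ℝ}

/-- the coefficients `Γ(n + α + 2) / (n! Γ(α + 2))` -/
noncomputable def γ (α : ℝ) (n : ℕ) : ℝ := Ring.choose (α + 2 + n - 1) n

lemma γ_eq (α : ℝ) (n : ℕ) : (n.factorial : ℝ) * γ α n = (ascPochhammer ℝ n).eval (α + 2) := by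
  unfold γ
  have h := Ring.factorial_nsmul_multichoose_eq_ascPochhammer (α + 2) n
  rw [Ring.multichoose_eq, Polynomial.ascPochhammer_smeval_eq_eval, nsmul_eq_mul] at h
  exact h

lemma γ_zero (α : ℝ) : γ α 0 = 1 := by
  have h := γ_eq α 0
  simpa using h

lemma γ_rec (α : ℝ) (n : ℕ) : (n + 1) * γ α (n + 1) = (n + α + 2) * γ α n := by
  have h1 := γ_eq α n
  have h2 := γ_eq α (n + 1)
  rw [ascPochhammer_succ_eval, ← h1, Nat.factorial_succ] at h2
  have h3 : (n.factorial : ℝ) ≠ 0 := by exact_mod_cast n.factorial_ne_zero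
  apply mul_left_cancel₀ h3
  push_cast at h2
  linear_combination h2

lemma γ_pos (hα : 0 < α) (n : ℕ) : 0 < γ α n := by
  induction n with
  | zero => rw [γ_zero]; exact one_pos
  | succ n ih =>
    have h := γ_rec α n
    have h1 : 0 < ((n : ℝ) + 1) * γ α (n + 1) := by rw [h]; positivity
    exact (mul_pos_iff_of_pos_left (by positivity)).mp h1

lemma I_γ (hα : 0 < α) (n : ℕ) : 2 * (1 + α) * I α n = (γ α n)⁻¹ := by
  induction n with
  | zero => rw [I_zero hα, γ_zero, inv_one]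
  | succ n ih =>
    have h1 := I_rec hα n
    have h2 := γ_rec α n
    have h3 := γ_pos hα n
    have h4 := γ_pos hα (n + 1)
    have h5 : 2 * (1 + α) * I α n * γ α n = 1 := by rw [ih]; exact inv_mul_cancel₀ h3.ne'
    apply eq_inv_of_mul_eq_one_left
    have h6 : ((n : ℝ) + 1) * (n + α + 2) ≠ 0 := by positivity
    apply mul_left_cancel₀ h6
    linear_combination (-(2 * (1 + α) * γ α n * (n + α + 2))) * h1 +
      (2 * (1 + α) * I α (n + 1) * (n + α + 2)) * h2 + (((n : ℝ) + 1) * (n + α + 2)) * h5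

lemma hasSum_γ (α : ℝ) {x : ℂ} (hx : ‖x‖ < 1) :
    HasSum (fun n => (γ α n : ℂ) * x ^ n) (1 / (1 - x) ^ ((α : ℂ) + 2)) := by
  have h := (Complex.one_div_one_sub_cpow_hasFPowerSeriesOnBall_zero ((α : ℂ) + 2)).hasSum
    (y := x) (by
      rw [Metric.mem_eball, edist_zero_right, ← ofReal_norm]
      rw [← ENNReal.ofReal_one]
      exact (ENNReal.ofReal_lt_ofReal_iff one_pos).mpr hx)
  rw [zero_add] at h
  convert! h using 1
  funext n
  simp only [FormalMultilinearSeries.ofScalars, γ]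
  simp
  left
  rw [Complex.ofReal_choose]
  push_cast
  rfl

lemma γ_ge_one (hα : 0 < α) (n : ℕ) : 1 ≤ γ α n := by
  induction n with
  | zero => rw [γ_zero]
  | succ n ih =>
    have h := γ_rec α n
    have hn : (0 : ℝ) ≤ n := by positivity
    have h1 : ((n : ℝ) + 1) * 1 ≤ ((n : ℝ) + 1) * γ α (n + 1) := by
      rw [h]; nlinarith
    exact (mul_le_mul_iff_right₀ (by positivity)).mp h1

lemma summable_γ (hα : 0 < α) {r : ℝ} (h0 : 0 ≤ r) (h1 : r < 1) :
    Summable (fun n => γ α n * r ^ n) := by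
  have h := (hasSum_γ α (x := (r : ℂ)) (by
    rw [Complex.norm_real, Real.norm_of_nonneg h0]; exact h1)).summable.norm
  simpa only [norm_mul, norm_pow, Complex.norm_real, Real.norm_of_nonneg h0,
    Real.norm_of_nonneg (γ_pos hα _).le] using h

lemma ae_lt (α : ℝ) : ∀ᵐ z ∂(bmu α), ‖z‖ < 1 := by
  unfold bmu
  apply (withDensity_absolutelyContinuous _ _).ae_le
  change ∀ᵐ z ∂(volume.restrict (Metric.ball (0 : ℂ) 1)), ‖z‖ < 1
  rw [ae_restrict_iff' measurableSet_ball]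
  exact Eventually.of_forall fun z hz => by simpa using hz

lemma memLp_mono (hα : 0 < α) (n : ℕ) : MemLp (fun z : ℂ => z ^ n) 2 (bmu α) := by
  have := isFinite hα
  apply MemLp.of_bound (C := 1)
  · exact (by fun_prop : Measurable fun z : ℂ => z ^ n).aestronglyMeasurable
  · filter_upwards [ae_lt α] with z hz
    rw [norm_pow]
    exact pow_le_one₀ (norm_nonneg _) hz.le

/-- monomials as elements of `L²` -/
noncomputable def X (hα : 0 < α) (n : ℕ) : Lp ℂ 2 (bmu α) := (memLp_mono hα n).toLp _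

lemma coeFn_X (hα : 0 < α) (n : ℕ) : (X hα n : ℂ → ℂ) =ᵐ[bmu α] fun z => z ^ n :=
  (memLp_mono hα n).coeFn_toLp

lemma inner_X_eq (hα : 0 < α) (m n : ℕ) :
    ⟪X hα m, X hα n⟫_ℂ = ∫ z, (starRingEnd ℂ) (z ^ m) * z ^ n ∂(bmu α) := by
  rw [L2.inner_def]
  apply integral_congr_ae
  filter_upwards [coeFn_X hα m, coeFn_X hα n] with z h1 h2
  rw [h1, h2, RCLike.inner_apply, mul_comm]

lemma inner_X_ne (hα : 0 < α) {m n : ℕ} (h : m ≠ n) : ⟪X hα m, X hα n⟫_ℂ = 0 := by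
  rw [inner_X_eq, integral_monomial_ne hα h]

lemma inner_X_self (hα : 0 < α) (n : ℕ) : ⟪X hα n, X hα n⟫_ℂ = ((γ α n)⁻¹ : ℝ) := by
  rw [inner_X_eq, integral_monomial_eq hα, I_γ hα]

lemma norm_X_le (hα : 0 < α) (n : ℕ) : ‖X hα n‖ ≤ 1 := by
  have h := inner_self_eq_norm_sq (𝕜 := ℂ) (X hα n)
  rw [inner_X_self hα n] at h
  have h2 : (γ α n)⁻¹ = ‖X hα n‖ ^ 2 := by simpa using h
  have h3 : (γ α n)⁻¹ ≤ 1 := inv_le_one_of_one_le₀ (γ_ge_one hα n)
  nlinarith [norm_nonneg (X hα n)]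

lemma summable_K (hα : 0 < α) {b : ℂ} (hb : ‖b‖ < 1) :
    Summable (fun n => ((γ α n : ℂ) * ((starRingEnd ℂ) b) ^ n) • X hα n) := by
  apply Summable.of_norm_bounded (summable_γ hα (norm_nonneg b) hb)
  intro n
  rw [norm_smul, norm_mul, norm_pow, RCLike.norm_conj, Complex.norm_real,
    Real.norm_of_nonneg (γ_pos hα n).le]
  calc γ α n * ‖b‖ ^ n * ‖X hα n‖ ≤ γ α n * ‖b‖ ^ n * 1 := by
        have := (γ_pos hα n).le
        gcongr
        exact norm_X_le hα n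
    _ = _ := mul_one _

/-- the reproducing kernel -/
noncomputable def K (hα : 0 < α) (b : ℂ) : Lp ℂ 2 (bmu α) :=
  ∑' n, ((γ α n : ℂ) * ((starRingEnd ℂ) b) ^ n) • X hα n

lemma inner_K (hα : 0 < α) {b : ℂ} (hb : ‖b‖ < 1) (f : Lp ℂ 2 (bmu α)) :
    HasSum (fun n => (γ α n : ℂ) * b ^ n * ⟪X hα n, f⟫_ℂ) ⟪K hα b, f⟫_ℂ := by
  have h := (summable_K hα hb).hasSum
  have h2 := h.mapL (innerSL ℂ f)
  have h3 := (Complex.conjCLE : ℂ →L[ℝ] ℂ).hasSum h2
  convert! h3 using 1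
  · funext n
    simp only [innerSL_apply_apply, ContinuousLinearEquiv.coe_coe, Complex.conjCLE_apply,
      inner_smul_right, map_mul, map_pow, Complex.conj_conj, Complex.conj_ofReal, inner_conj_symm]
  · simp only [innerSL_apply_apply, ContinuousLinearEquiv.coe_coe, Complex.conjCLE_apply,
      inner_conj_symm]
    rfl

lemma inner_K_X (hα : 0 < α) {b : ℂ} (hb : ‖b‖ < 1) (n : ℕ) : ⟪K hα b, X hα n⟫_ℂ = b ^ n := by
  refine (inner_K hα hb (X hα n)).unique ?_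
  have h : HasSum (fun m => (γ α m : ℂ) * b ^ m * ⟪X hα m, X hα n⟫_ℂ)
      ((γ α n : ℂ) * b ^ n * ⟪X hα n, X hα n⟫_ℂ) := by
    apply hasSum_single n
    intro m hm
    rw [inner_X_ne hα hm, mul_zero]
  rw [inner_X_self] at h
  convert! h using 1
  have h3 : (γ α n : ℂ) ≠ 0 := by exact_mod_cast (γ_pos hα n).ne'
  push_cast
  field_simp

lemma memLp_id (_hα : 0 < α) : MemLp (fun z : ℂ => z) ⊤ (bmu α) := by
  apply memLp_top_of_bound (C := 1)
  · exact measurable_id.aestronglyMeasurable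
  · filter_upwards [ae_lt α] with z hz using hz.le

/-- multiplication by `z` -/
noncomputable def M (hα : 0 < α) : Lp ℂ 2 (bmu α) →L[ℂ] Lp ℂ 2 (bmu α) :=
  (ContinuousLinearMap.mul ℂ ℂ).holderL (bmu α) ⊤ 2 2 ((memLp_id hα).toLp _)

lemma coeFn_M (hα : 0 < α) (f : Lp ℂ 2 (bmu α)) :
    (M hα f : ℂ → ℂ) =ᵐ[bmu α] fun z => z * f z := by
  have h := ContinuousLinearMap.coeFn_holder (r := 2) (ContinuousLinearMap.mul ℂ ℂ)
    ((memLp_id hα).toLp _) f
  filter_upwards [h, (memLp_id hα).coeFn_toLp] with z h1 h2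
  rw [h2] at h1
  exact h1

lemma M_X (hα : 0 < α) (n : ℕ) : M hα (X hα n) = X hα (n + 1) := by
  apply Lp.ext
  filter_upwards [coeFn_M hα (X hα n), coeFn_X hα n, coeFn_X hα (n + 1)] with z h1 h2 h3
  rw [h1, h2, h3, pow_succ']

/-- the Bergman space -/
noncomputable def A2 (hα : 0 < α) : Submodule ℂ (Lp ℂ 2 (bmu α)) :=
  (Submodule.span ℂ (Set.range (X hα))).topologicalClosure

lemma isClosed_A2 (hα : 0 < α) : IsClosed (A2 hα : Set (Lp ℂ 2 (bmu α))) :=
  Submodule.isClosed_topologicalClosure _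

lemma X_mem (hα : 0 < α) (n : ℕ) : X hα n ∈ A2 hα :=
  Submodule.le_topologicalClosure _ (Submodule.subset_span ⟨n, rfl⟩)

lemma M_mem (hα : 0 < α) {f : Lp ℂ 2 (bmu α)} (hf : f ∈ A2 hα) : M hα f ∈ A2 hα := by
  have h : A2 hα ≤ (A2 hα).comap (M hα : Lp ℂ 2 (bmu α) →ₗ[ℂ] Lp ℂ 2 (bmu α)) := by
    apply Submodule.topologicalClosure_minimal
    · rw [Submodule.span_le]
      rintro _ ⟨n, rfl⟩
      change M hα (X hα n) ∈ A2 hα
      rw [M_X]
      exact X_mem hα _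
    · exact (isClosed_A2 hα).preimage (M hα).continuous
  exact h hf

lemma inner_K_M (hα : 0 < α) {b : ℂ} (hb : ‖b‖ < 1) {f : Lp ℂ 2 (bmu α)} (hf : f ∈ A2 hα) :
    ⟪K hα b, M hα f⟫_ℂ = b * ⟪K hα b, f⟫_ℂ := by
  have h : A2 hα ≤ LinearMap.ker (((innerSL ℂ (K hα b)).comp (M hα) -
      b • (innerSL ℂ (K hα b)) : Lp ℂ 2 (bmu α) →L[ℂ] ℂ) : Lp ℂ 2 (bmu α) →ₗ[ℂ] ℂ) := by
    apply Submodule.topologicalClosure_minimal
    · rw [Submodule.span_le]
      rintro _ ⟨n, rfl⟩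
      rw [SetLike.mem_coe, LinearMap.mem_ker]
      change ⟪K hα b, M hα (X hα n)⟫_ℂ - b * ⟪K hα b, X hα n⟫_ℂ = 0
      rw [M_X, inner_K_X hα hb, inner_K_X hα hb, pow_succ']
      ring
    · exact ContinuousLinearMap.isClosed_ker _
  have h2 := LinearMap.mem_ker.mp (h hf)
  change ⟪K hα b, M hα f⟫_ℂ - b * ⟪K hα b, f⟫_ℂ = 0 at h2
  exact sub_eq_zero.mp h2

lemma span_rep (hα : 0 < α) {f : Lp ℂ 2 (bmu α)}
    (hf : f ∈ Submodule.span ℂ (Set.range (X hα))) :
    ∀ᵐ z ∂(bmu α), f z = ⟪K hα z, f⟫_ℂ := by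
  induction hf using Submodule.span_induction with
  | mem x hx =>
    obtain ⟨n, rfl⟩ := hx
    filter_upwards [coeFn_X hα n, ae_lt α] with z h1 h2
    rw [h1, inner_K_X hα h2]
  | zero =>
    filter_upwards [Lp.coeFn_zero ℂ 2 (bmu α)] with z h1
    rw [h1, inner_zero_right]
    rfl
  | add x y _ _ hx hy =>
    filter_upwards [hx, hy, Lp.coeFn_add x y] with z h1 h2 h3
    rw [h3, Pi.add_apply, h1, h2, inner_add_right]
  | smul c x _ hx =>
    filter_upwards [hx, Lp.coeFn_smul c x] with z h1 h3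
    rw [h3, Pi.smul_apply, h1, inner_smul_right, smul_eq_mul]

lemma rep (hα : 0 < α) {f : Lp ℂ 2 (bmu α)} (hf : f ∈ A2 hα) :
    ∀ᵐ z ∂(bmu α), f z = ⟪K hα z, f⟫_ℂ := by
  have hf' : f ∈ closure (Submodule.span ℂ (Set.range (X hα)) : Set (Lp ℂ 2 (bmu α))) := hf
  obtain ⟨u, hu, hlim⟩ := mem_closure_iff_seq_limit.mp hf'
  have h1 := tendstoInMeasure_of_tendsto_Lp hlim
  obtain ⟨ns, hns, hns2⟩ := h1.exists_seq_tendsto_ae
  have h3 : ∀ᵐ z ∂(bmu α), ∀ k, u k z = ⟪K hα z, u k⟫_ℂ := ae_all_iff.mpr fun k => span_rep hα (hu k)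
  filter_upwards [hns2, h3] with z h4 h5
  have h6 : Tendsto (fun i => ⟪K hα z, u (ns i)⟫_ℂ) atTop (𝓝 ⟪K hα z, f⟫_ℂ) :=
    Tendsto.inner tendsto_const_nhds (hlim.comp hns.tendsto_atTop)
  refine tendsto_nhds_unique h4 ?_
  simp_rw [h5]
  exact h6

lemma differentiableOn_rep (hα : 0 < α) (f : Lp ℂ 2 (bmu α)) :
    DifferentiableOn ℂ (fun z => ∑' n, (γ α n : ℂ) * z ^ n * ⟪X hα n, f⟫_ℂ)
      (Metric.ball (0 : ℂ) 1) := by
  intro z hz
  have hz : ‖z‖ < 1 := by simpa using hz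
  obtain ⟨r, hr1, hr2⟩ := exists_between hz
  have hr0 : 0 ≤ r := (norm_nonneg z).trans hr1.le
  have h : DifferentiableOn ℂ (fun z => ∑' n, (γ α n : ℂ) * z ^ n * ⟪X hα n, f⟫_ℂ)
      (Metric.ball (0 : ℂ) r) := by
    apply Complex.differentiableOn_tsum_of_summable_norm (u := fun n => γ α n * r ^ n * ‖f‖)
      ((summable_γ hα hr0 hr2).mul_right _) _ Metric.isOpen_ball
    · intro n w hw
      have hw : ‖w‖ < r := by simpa using hw
      rw [norm_mul, norm_mul, norm_pow, Complex.norm_real, Real.norm_of_nonneg (γ_pos hα n).le]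
      have := (γ_pos hα n).le
      gcongr
      calc ‖⟪X hα n, f⟫_ℂ‖ ≤ ‖X hα n‖ * ‖f‖ := norm_inner_le_norm _ _
        _ ≤ 1 * ‖f‖ := by gcongr; exact norm_X_le hα n
        _ = ‖f‖ := one_mul _
    · intro n
      fun_prop
  exact ((h z (by simpa using hr1)).differentiableAt
    (Metric.isOpen_ball.mem_nhds (by simpa using hr1))).differentiableWithinAt

end Pool.Agent.L7h55.Berg
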